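import Pool.Agent.helper18.HG.Spec

/-!
# hg:CFS: the density as the value of a power series with bounded integer coefficients
-/

set_option autoImplicit false

namespace Pool.Agent.helper18.HG

open Finset

/-- the bound of the coefficients -/
theorem CFS_abs (k : ℕ) (hw : ∀ n, w k n = 0 ∨ w k n = 1) (n : ℕ) : |cf k n| ≤ 1 := by
  unfold cf
  split_ifs with h
  · rcases hw 0 with h1 | h1 <;> rw [h1] <;> norm_num
  · rcases hw n with h1 | h1 <;> rcases hw (n - 1) with h2 | h2 <;> rw [h1, h2] <;> norm_num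

/-- summation by parts, real form -/
theorem CFS_sum (a : ℕ → ℝ) (x W : ℝ) (h : HasSum (fun n => a n * x ^ n) W) :
    HasSum (fun n => a n * x ^ (n + 1)) (x * W) ∧
    HasSum (fun n => (if n = 0 then a 0 else a n - a (n - 1)) * x ^ n) (W - x * W) := by
  have h1 : HasSum (fun n => a n * x ^ (n + 1)) (x * W) := by
    have e : (fun n => a n * x ^ (n + 1)) = fun n => x * (a n * x ^ n) := by
      funext n
      ring
    rw [e]
    exact h.mul_left x
  refine ⟨h1, ?_⟩
  have h2 : HasSum (fun n => (if n = 0 then 0 else a (n - 1)) * x ^ n) (x * W) := by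
    rw [← hasSum_nat_add_iff' 1]
    simpa using h1
  have e : (fun n => (if n = 0 then a 0 else a n - a (n - 1)) * x ^ n) =
      fun n => a n * x ^ n - (if n = 0 then 0 else a (n - 1)) * x ^ n := by
    funext n
    split_ifs with h
    · subst h
      ring
    · ring
  rw [e]
  exact h.sub h2

theorem CFS (hSER : SER_stmt) : CFS_stmt := by
  intro k s hk hs
  obtain ⟨hw, hd⟩ := hSER k s hk hs
  have hs0 : (s : ℝ) ≠ 0 := by
    have : 0 < s := by omega
    positivity
  have hs1 : (1 : ℝ) < s := by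
    exact_mod_cast (by omega : 1 < s)
  obtain ⟨x, hx⟩ : ∃ x : ℝ, x = (s : ℝ)⁻¹ := ⟨_, rfl⟩
  have hx0 : 0 ≤ x := by
    rw [hx]
    positivity
  have hx1 : x < 1 := by
    rw [hx]
    exact inv_lt_one_of_one_lt₀ hs1
  have hgeo : Summable fun n : ℕ => x ^ n := summable_geometric_of_lt_one hx0 hx1
  have ha : Summable fun n : ℕ => (w k n : ℝ) * x ^ n := by
    refine Summable.of_norm_bounded hgeo fun n => ?_
    rw [norm_mul, Real.norm_eq_abs, Real.norm_of_nonneg (pow_nonneg hx0 n)]
    refine mul_le_of_le_one_left (pow_nonneg hx0 n) ?_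
    rcases hw n with h1 | h1 <;> rw [h1] <;> norm_num
  obtain ⟨W, hW⟩ := ha
  obtain ⟨h1, h2⟩ := CFS_sum (fun n => (w k n : ℝ)) x W hW
  have hdens : dens k s = W - x * W := by
    rw [hd]
    have e : (fun n : ℕ => (w k n : ℝ) * ((s : ℝ) ^ (n + 1))⁻¹) = fun n => (w k n : ℝ) * x ^ (n + 1) := by
      funext n
      rw [hx, inv_pow]
    rw [e, h1.tsum_eq]
    have hsx : (s : ℝ) * x = 1 := by
      rw [hx]
      exact mul_inv_cancel₀ hs0
    linear_combination W * hsx
  have hcf : ∀ n, (cf k n : ℝ) = if n = 0 then (w k 0 : ℝ) else (w k n : ℝ) - (w k (n - 1) : ℝ) := by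
    intro n
    unfold cf
    split_ifs with h
    · rfl
    · push_cast
      rfl
  have hre : HasSum (fun n => (cf k n : ℝ) * x ^ n) (dens k s) := by
    have e : (fun n => (cf k n : ℝ) * x ^ n) =
        fun n => (if n = 0 then (w k 0 : ℝ) else (w k n : ℝ) - (w k (n - 1) : ℝ)) * x ^ n := by
      funext n
      rw [hcf]
    rw [e, hdens]
    exact h2
  refine ⟨CFS_abs k hw, ?_, ?_⟩
  · refine Summable.of_norm_bounded hgeo fun n => ?_
    rw [norm_norm, norm_mul, norm_pow, PowerSeries.coeff_mk, ← hx, Complex.norm_real, Real.norm_of_nonneg hx0]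
    refine mul_le_of_le_one_left (pow_nonneg hx0 n) ?_
    rw [Complex.norm_intCast]
    exact_mod_cast CFS_abs k hw n
  · have h3 := Complex.hasSum_ofReal.2 hre
    rw [← hx]
    have e : (fun n => ((PowerSeries.coeff n (PowerSeries.mk (cf k)) : ℤ) : ℂ) * (x : ℂ) ^ n) =
        fun n => (((cf k n : ℝ) * x ^ n : ℝ) : ℂ) := by
      funext n
      rw [PowerSeries.coeff_mk]
      push_cast
      rfl
    rw [e]
    exact h3

end Pool.Agent.helper18.HG
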